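import Pool.Agent.MWK.Stmts

/-!
# Block MWK, row TGA: from the word bit of type A to the exchanges of type D with `e = m + 1`
-/

namespace Pool.Agent.MWK.H74

open Pool.Agent.Helper14_MV Pool.Agent.Helper2_MV Pool.Agent.MWK

/-- a letter `z` whose first occurrence is between the first and the second occurrence of `x` has
small depth only if `x` has -/
theorem notDp {m : ℕ} {w P₁ P₂ T : List ℕ} {x z : ℕ} (hw : w = P₁ ++ x :: P₂ ++ T)
    (h1 : x ∉ P₁) (h2 : x ∉ P₂) (hz : z ∈ P₂) (hz1 : z ∉ P₁) (hx : ¬ Dp (m + 1) w x) :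
    ¬ Dp m w z := by
  intro h
  apply hx
  refine Dp.step h ?_
  obtain ⟨B, hB⟩ := mem_split hz
  have hzx : z ≠ x := by
    rintro rfl
    exact h2 hz
  have h3 : w = (P₁ ++ x :: pre P₂ z) ++ z :: (B ++ T) := by
    rw [hw]
    conv_lhs => rw [hB]
    simp
  have h4 : z ∉ P₁ ++ x :: pre P₂ z := by
    simp only [List.mem_append, List.mem_cons, not_or]
    exact ⟨hz1, hzx, not_mem_pre P₂ z⟩
  rw [h3, pre_split h4, List.count_append, List.count_cons_self, List.count_eq_zero.2 h1,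
    List.count_eq_zero.2 (fun hm => h2 (mem_of_mem_pre hm))]

theorem core {θ : FIC} (seg : SegStmt) (okm : OkmStmt) {m : ℕ} (hW : WA m θ)
    (P : List ℕ) (x y : ℕ) (Q : List ℕ) (hx : P.count x = 1)
    (h1 : ¬ Dp m (P ++ y :: x :: Q) y) (h2 : ¬ Dp (m + 1) (P ++ y :: x :: Q) x)
    (h3 : ¬ Dp (m + 1) (P ++ x :: y :: Q) x) :
    RR θ (P ++ x :: y :: Q) (P ++ y :: x :: Q) := by
  have hmem : x ∈ P := List.count_pos_iff.1 (by omega)
  obtain ⟨P₂, hP⟩ := mem_split hmem
  set P₁ := pre P x with hP₁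
  have hx1 : x ∉ P₁ := not_mem_pre P x
  have hx2 : x ∉ P₂ := by
    intro hm
    have hc : P.count x = P₁.count x + (1 + P₂.count x) := by
      conv_lhs => rw [hP]
      rw [List.count_append, List.count_cons_self]
      omega
    have := List.count_pos_iff.2 hm
    omega
  clear_value P₁
  subst hP
  -- letters of `P₂`
  have key : ∀ (w T A : List ℕ), w = P₁ ++ x :: P₂ ++ T → ¬ Dp (m + 1) w x →
      (∀ l, (P₁ ++ x :: P₂).count l ≤ A.count l) → ∀ z ∈ P₂,
        2 ≤ A.count z ∨ (z ∈ A ∧ ¬ Dp m w z) := by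
    intro w T A hw hd hA z hz
    have hc := hA z
    have h5 : (P₁ ++ x :: P₂).count z = P₁.count z + (x :: P₂).count z := List.count_append
    have h6 : P₂.count z ≤ (x :: P₂).count z := List.count_le_count_cons
    have h7 : 0 < P₂.count z := List.count_pos_iff.2 hz
    by_cases hz1 : z ∈ P₁
    · left
      have h8 : 0 < P₁.count z := List.count_pos_iff.2 hz1
      omega
    · right
      exact ⟨List.count_pos_iff.1 (by omega), notDp hw hx1 hx2 hz hz1 hd⟩
  -- the word `P y x Q`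
  have hA : RR θ (P₁ ++ [x] ++ [x] ++ (P₂ ++ [y]) ++ Q) (P₁ ++ x :: P₂ ++ y :: x :: Q) := by
    obtain ⟨qs, R, hlen, hQ, hok, -⟩ := seg m (P₁ ++ x :: P₂ ++ y :: x :: Q)
      (P₁ ++ x :: P₂ ++ [y, x]) Q (P₂ ++ [y]) (by simp) (by
        intro z hz
        rcases List.mem_append.1 hz with hz | hz
        · refine key _ (y :: x :: Q) _ rfl h2 (fun l => ?_) z hz
          rw [List.count_append (l₁ := P₁ ++ x :: P₂) (l₂ := [y, x])]
          omega
        · right
          rw [List.mem_singleton] at hz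
          subst hz
          exact ⟨by simp, h1⟩)
    have hok' : Ok (P₁ ++ [x] ++ [x] ++ (P₂ ++ [y])) (P₂ ++ [y]) qs := by
      refine okm qs _ _ _ _ hok (fun l => ?_) (fun z hz => hz)
      simp only [List.count_append, List.count_cons, List.count_nil]
      omega
    have h9 := hW P₁ [x] (P₂ ++ [y]) qs R hlen hok'
    have e1 : P₁ ++ [x] ++ [x] ++ (P₂ ++ [y]) ++ Q =
        P₁ ++ [x] ++ [x] ++ (P₂ ++ [y]) ++ qs.flatten ++ R := by
      rw [hQ]
      simp
    have e2 : P₁ ++ x :: P₂ ++ y :: x :: Q =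
        P₁ ++ [x] ++ (P₂ ++ [y]) ++ [x] ++ qs.flatten ++ R := by
      rw [hQ]
      simp
    rw [e1, e2]
    exact h9
  -- the word `P x y Q`
  have hB : RR θ (P₁ ++ [x] ++ [x] ++ P₂ ++ (y :: Q)) (P₁ ++ x :: P₂ ++ x :: y :: Q) := by
    obtain ⟨qs, R, hlen, hQ, hok, -⟩ := seg m (P₁ ++ x :: P₂ ++ x :: y :: Q)
      (P₁ ++ x :: P₂ ++ [x]) (y :: Q) P₂ (by simp) (by
        intro z hz
        refine key _ (x :: y :: Q) _ rfl h3 (fun l => ?_) z hz
        rw [List.count_append (l₁ := P₁ ++ x :: P₂) (l₂ := [x])]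
        omega)
    have hok' : Ok (P₁ ++ [x] ++ [x] ++ P₂) P₂ qs := by
      refine okm qs _ _ _ _ hok (fun l => ?_) (fun z hz => hz)
      simp only [List.count_append, List.count_cons, List.count_nil]
      omega
    have h9 := hW P₁ [x] P₂ qs R hlen hok'
    have e1 : P₁ ++ [x] ++ [x] ++ P₂ ++ (y :: Q) =
        P₁ ++ [x] ++ [x] ++ P₂ ++ qs.flatten ++ R := by
      rw [hQ]
      simp
    have e2 : P₁ ++ x :: P₂ ++ x :: y :: Q =
        P₁ ++ [x] ++ P₂ ++ [x] ++ qs.flatten ++ R := by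
      have : P₁ ++ x :: P₂ ++ x :: y :: Q = P₁ ++ [x] ++ P₂ ++ [x] ++ (y :: Q) := by simp
      rw [this, hQ]
      simp
    rw [e1, e2]
    exact h9
  have e3 : P₁ ++ [x] ++ [x] ++ (P₂ ++ [y]) ++ Q = P₁ ++ [x] ++ [x] ++ P₂ ++ (y :: Q) := by simp
  rw [e3] at hA
  exact θ.trans (RR.symm hB) hA

theorem tga (hswk : SwkStmt) (hseg : SegStmt) (hokm : OkmStmt) (hfta : FtaStmt)
    (hdag : DagStmt) (hswa : SwaStmt) : TgaStmt := by
  intro θ hK m hW P a b Q hab hPa hPb hF1 hF2
  by_cases ha : a ∈ P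
  · by_cases hb : b ∈ P
    · exact hswk θ hK P a b Q ha hb
    · -- `a ∈ P`, `b ∉ P`
      have hca : P.count a = 1 := by
        have := List.count_pos_iff.2 ha
        omega
      have hF : ¬ FD m (m + 1) (P ++ a :: b :: Q) b a (P.count a) := fun h => hF2 ⟨hb, h⟩
      unfold FD at hF
      push Not at hF
      obtain ⟨hb0, hF'⟩ := hF
      by_cases hb1 : Dp (m + 1) (P ++ a :: b :: Q) b
      · have ha1 : ¬ Dp (m + 1) (P ++ a :: b :: Q) a := (hF' hb1).2
        have hag : Ag (FF m (P ++ a :: b :: Q)) (P ++ a :: b :: Q) (P ++ b :: a :: Q) :=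
          hswa (FF m (P ++ a :: b :: Q)) P a b Q hab (fun h => h.1 ha) (fun h => hb0 h.2)
        have hD := hdag m _ _ hag.symm
        refine core hseg hokm hW P a b Q hca ?_ ?_ ha1
        · rw [hD m (by omega) b]
          exact hb0
        · rw [hD (m + 1) le_rfl a]
          exact ha1
      · exact hfta θ hK m hW P a b Q (Or.inl ha) (Or.inr hb1)
  · by_cases hb : b ∈ P
    · have hcb : P.count b = 1 := by
        have := List.count_pos_iff.2 hb
        omega
      have hF : ¬ FD m (m + 1) (P ++ a :: b :: Q) a b (P.count b) := fun h => hF1 ⟨ha, h⟩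
      unfold FD at hF
      push Not at hF
      obtain ⟨ha0, hF'⟩ := hF
      by_cases ha1 : Dp (m + 1) (P ++ a :: b :: Q) a
      · have hb1 : ¬ Dp (m + 1) (P ++ a :: b :: Q) b := (hF' ha1).2
        have hag : Ag (FF m (P ++ a :: b :: Q)) (P ++ a :: b :: Q) (P ++ b :: a :: Q) :=
          hswa (FF m (P ++ a :: b :: Q)) P a b Q hab (fun h => ha0 h.2) (fun h => h.1 hb)
        have hD := hdag m _ _ hag.symm
        refine RR.symm (core hseg hokm hW P b a Q hcb ha0 hb1 ?_)
        rw [hD (m + 1) le_rfl b]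
        exact hb1
      · exact hfta θ hK m hW P a b Q (Or.inr ha1) (Or.inl hb)
    · have hca : P.count a = 0 := List.count_eq_zero.2 ha
      have hcb : P.count b = 0 := List.count_eq_zero.2 hb
      refine hfta θ hK m hW P a b Q (Or.inr fun h => hF1 ⟨ha, Or.inr ⟨h, Or.inl hcb⟩⟩)
        (Or.inr fun h => hF2 ⟨hb, Or.inr ⟨h, Or.inl hca⟩⟩)

end Pool.Agent.MWK.H74
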